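import Pool.Agent.H547.V1.Stm

/-!
# SUN35 IB (helper287, for helper547): exact identity for the partial sums
-/

set_option autoImplicit false

namespace Pool.Agent.H287.SUN35

open Finset Pool.Agent.H547.V1
open scoped Nat

/-- inverse factorial on the integers -/
def invf (z : ℤ) : ℚ := if z < 0 then 0 else 1 / ((z.toNat) ! : ℚ)

theorem invf_neg {z : ℤ} (h : z < 0) : invf z = 0 := if_pos h

theorem invf_nat (n : ℕ) : invf (n : ℤ) = 1 / (n ! : ℚ) := by
  unfold invf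
  rw [if_neg (by omega), Int.toNat_natCast]

theorem invf_succ (z : ℤ) : invf z = ((z : ℚ) + 1) * invf (z + 1) := by
  rcases lt_trichotomy z (-1) with h | h | h
  · rw [invf_neg (by omega), invf_neg (by omega), mul_zero]
  · subst h; rw [invf_neg (by omega)]; norm_num
  · obtain ⟨n, rfl⟩ := Int.eq_ofNat_of_zero_le (show 0 ≤ z by omega)
    have : ((n : ℤ) + 1) = ((n + 1 : ℕ) : ℤ) := by push_cast; ring
    rw [this, invf_nat, invf_nat, Nat.factorial_succ]
    have h1 : ((n)! : ℚ) ≠ 0 := by positivity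
    have h2 : ((n : ℚ) + 1) ≠ 0 := by positivity
    push_cast
    field_simp

/-- the terms, `N = n + 1` -/
def f (n i : ℕ) : ℚ := 8 / 81 ^ n * ((n : ℚ) + 1) * ((4 * n + 3)! : ℚ) * (2 * (i : ℚ) + 1) *
  invf ((n : ℤ) - 3 * i) * invf ((n : ℤ) + 3 + 3 * i) * invf ((n : ℤ) - i) * invf ((n : ℤ) + 1 + i)

/-- the certificate, `N = n + 1` -/
def G (n i : ℕ) : ℚ := 4 / 81 ^ (n + 1) * ((4 * n + 3)! : ℚ) *
  (35 * ((n : ℚ) + 1) ^ 2 + 8 * ((n : ℚ) + 1) - 27 * (i : ℚ) ^ 2) *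
  invf ((n : ℤ) + 1 - 3 * i) * invf ((n : ℤ) + 1 + 3 * i) * invf ((n : ℤ) + 1 - i) *
  invf ((n : ℤ) + 1 + i)

theorem cert (n i : ℕ) : f (n + 1) i - f n i = G n i - G n (i + 1) := by
  set A : ℚ := invf ((n : ℤ) + 1 - 3 * i) with hA
  set B : ℚ := invf ((n : ℤ) + 4 + 3 * i) with hB
  set C : ℚ := invf ((n : ℤ) + 1 - i) with hC
  set D : ℚ := invf ((n : ℤ) + 2 + i) with hD
  have a1 : invf ((n : ℤ) - 3 * i) = ((n : ℚ) + 1 - 3 * i) * A := by
    rw [invf_succ, hA, show (n : ℤ) - 3 * i + 1 = (n : ℤ) + 1 - 3 * i by ring]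
    push_cast
    ring
  have a2 : invf ((n : ℤ) - 1 - 3 * i) = ((n : ℚ) - 3 * i) * invf ((n : ℤ) - 3 * i) := by
    rw [invf_succ, show (n : ℤ) - 1 - 3 * i + 1 = (n : ℤ) - 3 * i by ring]
    push_cast
    ring
  have a3 : invf ((n : ℤ) + 1 - 3 * ((i + 1 : ℕ) : ℤ)) =
      ((n : ℚ) - 1 - 3 * i) * invf ((n : ℤ) - 1 - 3 * i) := by
    rw [invf_succ, show (n : ℤ) + 1 - 3 * ((i + 1 : ℕ) : ℤ) + 1 = (n : ℤ) - 1 - 3 * i by
      push_cast; ring]
    push_cast
    ring
  have b1 : invf ((n : ℤ) + 3 + 3 * i) = ((n : ℚ) + 4 + 3 * i) * B := by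
    rw [invf_succ, hB, show (n : ℤ) + 3 + 3 * i + 1 = (n : ℤ) + 4 + 3 * i by ring]
    push_cast
    ring
  have b2 : invf ((n : ℤ) + 2 + 3 * i) = ((n : ℚ) + 3 + 3 * i) * invf ((n : ℤ) + 3 + 3 * i) := by
    rw [invf_succ, show (n : ℤ) + 2 + 3 * i + 1 = (n : ℤ) + 3 + 3 * i by ring]
    push_cast
    ring
  have b3 : invf ((n : ℤ) + 1 + 3 * i) = ((n : ℚ) + 2 + 3 * i) * invf ((n : ℤ) + 2 + 3 * i) := by
    rw [invf_succ, show (n : ℤ) + 1 + 3 * i + 1 = (n : ℤ) + 2 + 3 * i by ring]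
    push_cast
    ring
  have b4 : invf (((n + 1 : ℕ) : ℤ) + 3 + 3 * i) = B := by
    rw [hB]
    congr 1
  have b5 : invf ((n : ℤ) + 1 + 3 * ((i + 1 : ℕ) : ℤ)) = B := by
    rw [hB]
    congr 1
    push_cast
    ring
  have a4 : invf (((n + 1 : ℕ) : ℤ) - 3 * i) = A := by
    rw [hA]
    congr 1
  have c1 : invf ((n : ℤ) - i) = ((n : ℚ) + 1 - i) * C := by
    rw [invf_succ, hC, show (n : ℤ) - i + 1 = (n : ℤ) + 1 - i by ring]
    push_cast
    ring
  have c2 : invf (((n + 1 : ℕ) : ℤ) - i) = C := by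
    rw [hC]
    congr 1
  have c3 : invf ((n : ℤ) + 1 - ((i + 1 : ℕ) : ℤ)) = invf ((n : ℤ) - i) := by
    congr 1
    push_cast
    ring
  have d1 : invf ((n : ℤ) + 1 + i) = ((n : ℚ) + 2 + i) * D := by
    rw [invf_succ, hD, show (n : ℤ) + 1 + i + 1 = (n : ℤ) + 2 + i by ring]
    push_cast
    ring
  have d2 : invf (((n + 1 : ℕ) : ℤ) + 1 + i) = D := by
    rw [hD]
    congr 1
  have d3 : invf ((n : ℤ) + 1 + ((i + 1 : ℕ) : ℤ)) = D := by
    rw [hD]
    congr 1
    push_cast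
    ring
  have f1 : ((4 * (n + 1) + 3)! : ℚ) =
      (4 * (n : ℚ) + 7) * (4 * n + 6) * (4 * n + 5) * (4 * n + 4) * ((4 * n + 3)! : ℚ) := by
    rw [show 4 * (n + 1) + 3 = 4 * n + 3 + 1 + 1 + 1 + 1 by ring, Nat.factorial_succ,
      Nat.factorial_succ, Nat.factorial_succ, Nat.factorial_succ]
    push_cast
    ring
  have p1 : (8 : ℚ) / 81 ^ n = 648 * (1 / 81 ^ (n + 1)) := by
    rw [pow_succ]
    field_simp
    norm_num
  unfold f G
  rw [a3, a2, a1, a4, b3, b2, b1, b4, b5, c3, c1, c2, d1, d2, d3, f1, p1]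
  rw [show (8 : ℚ) / 81 ^ (n + 1) = 8 * (1 / 81 ^ (n + 1)) by ring,
    show (4 : ℚ) / 81 ^ (n + 1) = 4 * (1 / 81 ^ (n + 1)) by ring]
  generalize (1 / 81 ^ (n + 1) : ℚ) = q
  push_cast
  ring

theorem G_zero (n : ℕ) : G n 0 = a35 (n + 1) := by
  unfold G a35
  have h0 : (n : ℤ) + 1 = ((n + 1 : ℕ) : ℤ) := by push_cast; ring
  have h1 : ((4 * (n + 1))! : ℚ) = (4 * (n : ℚ) + 4) * ((4 * n + 3)! : ℚ) := by
    rw [show 4 * (n + 1) = 4 * n + 3 + 1 by ring, Nat.factorial_succ]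
    push_cast
    ring
  rw [h1]
  simp only [Nat.cast_zero, mul_zero, sub_zero, add_zero]
  rw [h0, invf_nat]
  have h2 : ((n + 1)! : ℚ) ≠ 0 := by positivity
  push_cast
  field_simp
  ring

theorem G_large (n K : ℕ) (h : n + 1 < K) : G n K = 0 := by
  unfold G
  rw [invf_neg (z := (n : ℤ) + 1 - K) (by omega)]
  ring

theorem f_large (n i : ℕ) (h : n < 3 * i) : f n i = 0 := by
  unfold f
  rw [invf_neg (z := (n : ℤ) - 3 * i) (by omega)]
  ring

theorem sum_f (K : ℕ) : ∀ n : ℕ, n < K → ∑ i ∈ range K, f n i = S35 (n + 1) := by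
  intro n
  induction n with
  | zero =>
    intro hK
    rw [sum_eq_single 0]
    · have h1 : S35 (0 + 1) = 8 := by
        unfold S35 a35
        rw [zero_add, sum_range_one]
        norm_num
      rw [h1]
      unfold f
      have e0 : invf 0 = 1 := by
        have := invf_nat 0
        simpa using this
      have e1 : invf 1 = 1 := by
        have := invf_nat 1
        simpa using this
      have e3 : invf 3 = 1 / 6 := by
        have := invf_nat 3
        rw [show (3 ! : ℕ) = 6 by rfl] at this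
        simpa using this
      simp only [Nat.cast_zero, mul_zero, sub_zero, add_zero, zero_add, e0, e1, e3]
      rw [show (3 ! : ℕ) = 6 by rfl]
      norm_num
    · intro k _ hk
      exact f_large _ _ (by omega)
    · intro h
      exact absurd (mem_range.mpr hK) h
  | succ n ih =>
    intro hK
    have h1 : ∑ i ∈ range K, f (n + 1) i - ∑ i ∈ range K, f n i = a35 (n + 1) := by
      have h2 : ∑ i ∈ range K, (f (n + 1) i - f n i) = G n 0 - G n K := by
        rw [← sum_range_sub']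
        exact sum_congr rfl fun i _ => cert n i
      rw [← sum_sub_distrib, h2, G_large n K (by omega), G_zero, sub_zero]
    rw [ih (by omega)] at h1
    have h3 : S35 (n + 1 + 1) = S35 (n + 1) + a35 (n + 1) := by
      unfold S35
      rw [sum_range_succ _ (n + 1)]
    rw [h3]
    linarith

theorem IB : Pool.Agent.H547.V1.S_IB := by
  intro n
  rw [← sum_f (n + 1) n (by omega), mul_sum]
  have hsub : range (n / 3 + 1) ⊆ range (n + 1) := range_subset_range.2 (by omega)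
  rw [← sum_subset hsub fun i _ hi => f_large n i (by
    rw [mem_range, not_lt] at hi
    omega)]
  refine sum_congr rfl fun i hi => ?_
  have hi3 : 3 * i ≤ n := by
    rw [mem_range] at hi
    omega
  have c1 : (((2 * n + 3).choose (n - 3 * i) : ℕ) : ℚ) =
      ((2 * n + 3)! : ℚ) * (invf ((n : ℤ) - 3 * i) * invf ((n : ℤ) + 3 + 3 * i)) := by
    have e1 : (n : ℤ) - 3 * i = ((n - 3 * i : ℕ) : ℤ) := by omega
    have e2 : (n : ℤ) + 3 + 3 * i = ((n + 3 + 3 * i : ℕ) : ℤ) := by omega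
    rw [e1, e2, invf_nat, invf_nat, Nat.cast_choose ℚ (by omega : n - 3 * i ≤ 2 * n + 3),
      show 2 * n + 3 - (n - 3 * i) = n + 3 + 3 * i by omega]
    field_simp
  have c2 : (((2 * n + 1).choose (n - i) : ℕ) : ℚ) =
      ((2 * n + 1)! : ℚ) * (invf ((n : ℤ) - i) * invf ((n : ℤ) + 1 + i)) := by
    have e1 : (n : ℤ) - i = ((n - i : ℕ) : ℤ) := by omega
    have e2 : (n : ℤ) + 1 + i = ((n + 1 + i : ℕ) : ℤ) := by omega
    rw [e1, e2, invf_nat, invf_nat, Nat.cast_choose ℚ (by omega : n - i ≤ 2 * n + 1),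
      show 2 * n + 1 - (n - i) = n + 1 + i by omega]
    field_simp
  rw [c1, c2]
  have h1 : ((2 * n + 3)! : ℚ) ≠ 0 := by positivity
  have h2 : ((2 * n + 1)! : ℚ) ≠ 0 := by positivity
  unfold f
  field_simp

end Pool.Agent.H287.SUN35
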